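import Pool.Agent.H896.SI.Infl

/-!
# The rational rank one Stark conjecture for mixed signature characters follows from the unramified
# cyclic case and the totally odd cyclic case

`MixData F K` are the data of the question (`F` any number field), `MixData.Q1` is the question.
-/

set_option autoImplicit false

namespace Pool.Agent.Results.MP_c49e96_nt.OddTwistAndUnramified

open NumberField Pool.Agent.Q20.SI Pool.Agent.H896.SI

/-- **Theorem.** Let `F` be a number field (in the question a real quadratic field). Suppose that Stark's
rational conjecture holds
* for the cyclic extensions `L/E` of finite extensions `E` of `F` which are unramified at all finite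
  places, `S` = archimedean places and one inert prime (`UnramifiedInert F`),
* for the cyclic extensions `L/F` in which the complex conjugations at all places above the real places
  of `F` are the same automorphism `c ≠ 1` (CM fields if `F` is totally real), `S` = archimedean places,
  ramified primes and one inert prime, where the order of vanishing is the number of complex places of
  `F` (`OddCyclic F`; if `F` is totally real, for example real quadratic, this order is `0` and this is
  the theorem of Siegel).

Then the question Q1 has a positive answer for all abelian `K/F`, all `S`, `v` and all mixed signature
characters `χ` (with `χ(c) = -1` at the archimedean places other than `v₁`), and moreover with one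
`c ∈ ℚ(χ)` and one `u ∈ U_{v,S}` for all the conjugates of `χ`. -/
theorem result (F : Type) [Field F] [NumberField F] (hU : UnramifiedInert F) (hO : OddCyclic F)
    (K : Type) [Field K] [NumberField K] [Algebra F K] [IsGalois F K] (D : MixData F K) :
    D.Q1 ∧ D.Q1Conj :=
  ⟨(mix_iff D).2 fun σ _ => starkChar_sharp hU hO D.χ σ,
    (mix_conj_iff D).2 fun σ => starkChar_sharp hU hO D.χ σ⟩

end Pool.Agent.Results.MP_c49e96_nt.OddTwistAndUnramified
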